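import Mathlib

set_option autoImplicit false

namespace Pool.Agent.Lib.MP_63edde_co

open Finset

variable {V : Type}

/-- `A` is empty, or connected in red, or connected in blue. -/
def Good (R B : SimpleGraph V) (A : Set V) : Prop :=
  A = ∅ ∨ (R.induce A).Connected ∨ (B.induce A).Connected

/-- The vertex set splits into two good sets. -/
def Split (R B : SimpleGraph V) : Prop :=
  ∃ A A' : Set V, Disjoint A A' ∧ A ∪ A' = Set.univ ∧ Good R B A ∧ Good R B A'

lemma conn_of_center (H : SimpleGraph V) (A : Set V) (x : V) (hx : x ∈ A)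
    (h : ∀ a ∈ A, a = x ∨ H.Adj x a ∨ ∃ s ∈ A, H.Adj x s ∧ H.Adj s a) :
    (H.induce A).Connected := by
  rw [SimpleGraph.connected_iff_exists_forall_reachable]
  refine ⟨⟨x, hx⟩, ?_⟩
  rintro ⟨a, ha⟩
  rcases h a ha with rfl | h1 | ⟨s, hs, h1, h2⟩
  · exact SimpleGraph.Reachable.refl _
  · exact SimpleGraph.Adj.reachable (by simpa using h1)
  · have e1 : (H.induce A).Adj ⟨x, hx⟩ ⟨s, hs⟩ := by simpa using h1
    have e2 : (H.induce A).Adj ⟨s, hs⟩ ⟨a, ha⟩ := by simpa using h2
    exact e1.reachable.trans e2.reachable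

lemma good_of_complete (R B : SimpleGraph V) (A : Set V)
    (h : ∀ a ∈ A, ∀ b ∈ A, a ≠ b → R.Adj a b ∨ B.Adj a b) : Good R B A := by
  by_cases hA : A = ∅
  · exact Or.inl hA
  · have hne : Nonempty A := Set.nonempty_coe_sort.mpr (Set.nonempty_iff_ne_empty.mpr hA)
    rcases (R.induce A).connected_or_connected_compl with h1 | h1
    · exact Or.inr (Or.inl h1)
    · refine Or.inr (Or.inr (h1.mono ?_))
      rintro ⟨a, ha⟩ ⟨b, hb⟩ hab
      rw [SimpleGraph.compl_adj] at hab
      have hne : a ≠ b := fun e => hab.1 (Subtype.ext e)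
      rcases h a ha b hb hne with h2 | h2
      · exact absurd (by simpa using h2) hab.2
      · simpa using h2

lemma exists_inj_reps {α β : Type} [DecidableEq α] [DecidableEq β] [Nonempty β]
    (s : Finset α) (t : α → Finset β) (h : ∀ a ∈ s, s.card ≤ (t a).card) :
    ∃ f : α → β, (∀ a ∈ s, ∀ b ∈ s, f a = f b → a = b) ∧ ∀ a ∈ s, f a ∈ t a := by
  have hall := (Finset.all_card_le_biUnion_card_iff_exists_injective
    (fun a : s => t a.1)).mp (by
      intro u
      rcases u.eq_empty_or_nonempty with rfl | ⟨a, ha⟩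
      · simp
      · calc u.card ≤ Fintype.card s := Finset.card_le_univ u
          _ = s.card := by simp
          _ ≤ (t a.1).card := h a.1 a.2
          _ ≤ _ := Finset.card_le_card (Finset.subset_biUnion_of_mem (fun a : s => t a.1) ha))
  obtain ⟨f, hf, hft⟩ := hall
  classical
  refine ⟨fun a => if ha : a ∈ s then f ⟨a, ha⟩ else Classical.arbitrary β, ?_, ?_⟩
  · intro a ha b hb hab
    simp only [ha, hb, dif_pos] at hab
    exact congrArg Subtype.val (hf hab)
  · intro a ha
    simp only [ha, dif_pos]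
    exact hft ⟨a, ha⟩

lemma card_two_preds [DecidableEq V] (Z : Finset V) (P Q : V → Prop) [DecidablePred P]
    [DecidablePred Q] :
    (Z.filter (fun w => P w ∧ Q w)).card + (Z.filter (fun w => ¬ P w)).card
      + (Z.filter (fun w => ¬ Q w)).card
      = Z.card + (Z.filter (fun w => ¬ P w ∧ ¬ Q w)).card := by
  induction Z using Finset.induction_on with
  | empty => simp
  | insert a s ha ih =>
    have h1 : ∀ (T : V → Prop) [DecidablePred T], ((insert a s).filter T).card
        = (s.filter T).card + if T a then 1 else 0 := by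
      intro T _
      rw [Finset.filter_insert]
      split_ifs with hT
      · rw [Finset.card_insert_of_notMem (fun hh => ha (Finset.mem_filter.mp hh).1)]
      · simp
    rw [h1, h1, h1, h1, Finset.card_insert_of_notMem ha]
    by_cases hP : P a <;> by_cases hQ : Q a <;> simp [hP, hQ] <;> omega

/-- The main construction. -/
theorem core [Fintype V] [DecidableEq V] (G R B : SimpleGraph V) [DecidableRel G.Adj]
    (hG : ∀ u v, G.Adj u v → R.Adj u v ∨ B.Adj u v) (k : ℕ)
    (hk : ∀ v, (univ.filter (fun w => w ≠ v ∧ ¬ G.Adj v w)).card ≤ k)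
    (hn : 3 * k ≤ Fintype.card V + 2)
    (X Y Z : Finset V) (hcov : ∀ v, v ∈ X ∨ v ∈ Y ∨ v ∈ Z)
    (dXY : Disjoint X Y) (dXZ : Disjoint X Z) (dYZ : Disjoint Y Z)
    (hXY : ∀ x ∈ X, ∀ y ∈ Y, ¬ G.Adj x y)
    (hXZ : ∀ x ∈ X, ∀ z ∈ Z, G.Adj x z → R.Adj x z)
    (hYZ : ∀ y ∈ Y, ∀ z ∈ Z, G.Adj y z → B.Adj y z)
    (x x' y y' : V) (hx : x ∈ X) (hx' : x' ∈ X) (hxx : x' ≠ x) (hxn : ¬ G.Adj x x')
    (hy : y ∈ Y) (hy' : y' ∈ Y) (hyy : y' ≠ y) (hyn : ¬ G.Adj y y') :
    Split R B := by
  classical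
  have dXY' : ∀ v, v ∈ X → v ∈ Y → False := fun v h1 h2 => Finset.disjoint_left.mp dXY h1 h2
  have dXZ' : ∀ v, v ∈ X → v ∈ Z → False := fun v h1 h2 => Finset.disjoint_left.mp dXZ h1 h2
  have dYZ' : ∀ v, v ∈ Y → v ∈ Z → False := fun v h1 h2 => Finset.disjoint_left.mp dYZ h1 h2
  have hcard : X.card + Y.card + Z.card = Fintype.card V := by
    rw [← Finset.card_union_of_disjoint dXY,
      ← Finset.card_union_of_disjoint (Finset.disjoint_union_left.mpr ⟨dXZ, dYZ⟩)]
    congr 1
    ext v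
    simpa [or_assoc] using hcov v
  -- non-neighbours in Z
  have hMX : ∀ u ∈ X, (Z.filter (fun w => ¬ G.Adj u w)).card + Y.card ≤ k := by
    intro u hu
    rw [← Finset.card_union_of_disjoint
      (Finset.disjoint_of_subset_left (Finset.filter_subset _ _) dYZ.symm)]
    refine le_trans (Finset.card_le_card ?_) (hk u)
    intro w hw
    simp only [Finset.mem_union, Finset.mem_filter, Finset.mem_univ, true_and] at hw ⊢
    rcases hw with ⟨h1, h2⟩ | h1
    · exact ⟨fun e => dXZ' u hu (e ▸ h1), h2⟩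
    · exact ⟨fun e => dXY' u hu (e ▸ h1), hXY u hu w h1⟩
  have hMY : ∀ u ∈ Y, (Z.filter (fun w => ¬ G.Adj u w)).card + X.card ≤ k := by
    intro u hu
    rw [← Finset.card_union_of_disjoint
      (Finset.disjoint_of_subset_left (Finset.filter_subset _ _) dXZ.symm)]
    refine le_trans (Finset.card_le_card ?_) (hk u)
    intro w hw
    simp only [Finset.mem_union, Finset.mem_filter, Finset.mem_univ, true_and] at hw ⊢
    rcases hw with ⟨h1, h2⟩ | h1
    · exact ⟨fun e => dYZ' u hu (e ▸ h1), h2⟩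
    · exact ⟨fun e => dXY' u (e ▸ h1) hu, fun h => hXY w h1 u hu h.symm⟩
  have hMx : (Z.filter (fun w => ¬ G.Adj x w)).card + Y.card + 1 ≤ k := by
    rw [← Finset.card_union_of_disjoint
      (Finset.disjoint_of_subset_left (Finset.filter_subset _ _) dYZ.symm),
      ← Finset.card_insert_of_notMem (a := x') (by
        simp only [Finset.mem_union, Finset.mem_filter, not_or, not_and]
        exact ⟨fun h => absurd h (dXZ' x' hx'), dXY' x' hx'⟩)]
    refine le_trans (Finset.card_le_card ?_) (hk x)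
    intro w hw
    simp only [Finset.mem_insert, Finset.mem_union, Finset.mem_filter, Finset.mem_univ,
      true_and] at hw ⊢
    rcases hw with rfl | ⟨h1, h2⟩ | h1
    · exact ⟨hxx, hxn⟩
    · exact ⟨fun e => dXZ' x hx (e ▸ h1), h2⟩
    · exact ⟨fun e => dXY' x hx (e ▸ h1), hXY x hx w h1⟩
  have hMy : (Z.filter (fun w => ¬ G.Adj y w)).card + X.card + 1 ≤ k := by
    rw [← Finset.card_union_of_disjoint
      (Finset.disjoint_of_subset_left (Finset.filter_subset _ _) dXZ.symm),
      ← Finset.card_insert_of_notMem (a := y') (by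
        simp only [Finset.mem_union, Finset.mem_filter, not_or, not_and]
        exact ⟨fun h => absurd h (dYZ' y' hy'), fun h => dXY' y' h hy'⟩)]
    refine le_trans (Finset.card_le_card ?_) (hk y)
    intro w hw
    simp only [Finset.mem_insert, Finset.mem_union, Finset.mem_filter, Finset.mem_univ,
      true_and] at hw ⊢
    rcases hw with rfl | ⟨h1, h2⟩ | h1
    · exact ⟨hyy, hyn⟩
    · exact ⟨fun e => dYZ' y hy (e ▸ h1), h2⟩
    · exact ⟨fun e => dXY' y (e ▸ h1) hy, fun h => hXY w h1 y hy h.symm⟩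
  set W := Z.filter (fun w => G.Adj x w ∧ G.Adj y w) with hW
  set Z0 := Z.filter (fun w => ¬ G.Adj x w ∧ ¬ G.Adj y w) with hZ0
  have hWc := card_two_preds Z (fun w => G.Adj x w) (fun w => G.Adj y w)
  rw [← hW, ← hZ0] at hWc
  have hZ0x : Z0.card ≤ (Z.filter (fun w => ¬ G.Adj x w)).card := by
    refine Finset.card_le_card ?_
    intro w hw
    simp only [hZ0, Finset.mem_filter] at hw ⊢
    exact ⟨hw.1, hw.2.1⟩
  have hZ0y : Z0.card ≤ (Z.filter (fun w => ¬ G.Adj y w)).card := by
    refine Finset.card_le_card ?_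
    intro w hw
    simp only [hZ0, Finset.mem_filter] at hw ⊢
    exact ⟨hw.1, hw.2.2⟩
  have hxy : x ≠ y := fun e => dXY' x hx (e ▸ hy)
  -- every vertex of Z0 has many neighbours in W
  have hz : ∀ z ∈ Z0, Z0.card ≤ (W.filter (fun w => G.Adj z w)).card := by
    intro z hz
    have hz' := hz
    simp only [hZ0, Finset.mem_filter] at hz'
    have h1 : (W.filter (fun w => ¬ G.Adj z w)).card + 1 + 1 ≤ k := by
      rw [← Finset.card_insert_of_notMem (a := x) (by
          simp only [hW, Finset.mem_filter, not_and]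
          exact fun h => absurd h.1 (dXZ' x hx)),
        ← Finset.card_insert_of_notMem (a := y) (by
          simp only [hW, Finset.mem_insert, Finset.mem_filter, not_or, not_and]
          exact ⟨hxy.symm, fun h => absurd h.1 (dYZ' y hy)⟩)]
      refine le_trans (Finset.card_le_card ?_) (hk z)
      intro w hw
      simp only [hW, Finset.mem_insert, Finset.mem_filter, Finset.mem_univ,
        true_and] at hw ⊢
      rcases hw with rfl | rfl | ⟨⟨h1, h2, h3⟩, h4⟩
      · exact ⟨fun e => dYZ' w hy (e ▸ hz'.1), fun h => hz'.2.2 h.symm⟩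
      · exact ⟨fun e => dXZ' w hx (e ▸ hz'.1), fun h => hz'.2.1 h.symm⟩
      · exact ⟨fun e => hz'.2.1 (e ▸ h2), h4⟩
    have h2 := Finset.card_filter_add_card_filter_not (s := W) (fun w => G.Adj z w)
    omega
  have : Nonempty V := ⟨x⟩
  obtain ⟨f, hfinj, hf⟩ := exists_inj_reps Z0 (fun z => W.filter (fun w => G.Adj z w)) hz
  have hfW : ∀ z ∈ Z0, f z ∈ Z ∧ G.Adj x (f z) ∧ G.Adj y (f z) ∧ G.Adj z (f z) := by
    intro z hz
    have := hf z hz
    simp only [hW, Finset.mem_filter] at this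
    exact ⟨this.1.1, this.1.2.1, this.1.2.2, this.2⟩
  set ZR := Z0.filter (fun z => R.Adj z (f z)) with hZR
  set ZB := Z0.filter (fun z => ¬ R.Adj z (f z)) with hZB
  set T := ZB.image f with hT
  have hTc : T.card ≤ Z0.card := le_trans Finset.card_image_le (Finset.card_filter_le _ _)
  have hYpos : 1 ≤ Y.card := Finset.card_pos.mpr ⟨y, hy⟩
  have hXpos : 1 ≤ X.card := Finset.card_pos.mpr ⟨x, hx⟩
  -- representatives for X
  have hg : ∀ u, ∃ w, u ∈ X → (w ∈ Z ∧ G.Adj x w ∧ G.Adj u w ∧ w ∉ T) := by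
    intro u
    by_cases hu : u ∈ X
    · have h1 := card_two_preds Z (fun w => G.Adj x w) (fun w => G.Adj u w)
      have h2 := hMX u hu
      have h3 : T.card < (Z.filter (fun w => G.Adj x w ∧ G.Adj u w)).card := by omega
      obtain ⟨w, hw1, hw2⟩ := Finset.exists_mem_notMem_of_card_lt_card h3
      simp only [Finset.mem_filter] at hw1
      exact ⟨w, fun _ => ⟨hw1.1, hw1.2.1, hw1.2.2, hw2⟩⟩
    · exact ⟨x, fun h => absurd h hu⟩
  choose g hg using hg
  set S := ZR.image f ∪ (X.erase x).image g with hS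
  have hSc : S.card + 1 ≤ Z0.card + X.card := by
    have h1 : S.card ≤ (ZR.image f).card + ((X.erase x).image g).card := Finset.card_union_le _ _
    have h2 : (ZR.image f).card ≤ Z0.card :=
      le_trans Finset.card_image_le (Finset.card_filter_le _ _)
    have h3 : ((X.erase x).image g).card ≤ (X.erase x).card := Finset.card_image_le
    rw [Finset.card_erase_of_mem hx] at h3
    omega
  have hSprop : ∀ s ∈ S, s ∈ Z ∧ G.Adj x s ∧ s ∉ T := by
    intro s hs
    simp only [hS, Finset.mem_union, Finset.mem_image] at hs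
    rcases hs with ⟨z, hz, rfl⟩ | ⟨u, hu, rfl⟩
    · have hz0 : z ∈ Z0 := (Finset.mem_filter.mp hz).1
      refine ⟨(hfW z hz0).1, (hfW z hz0).2.1, ?_⟩
      simp only [hT, Finset.mem_image, not_exists, not_and]
      intro z' hz' e
      have hz0' : z' ∈ Z0 := (Finset.mem_filter.mp hz').1
      have := hfinj z' hz0' z hz0 e
      subst this
      exact (Finset.mem_filter.mp hz').2 (Finset.mem_filter.mp hz).2
    · have := hg u (Finset.mem_of_mem_erase hu)
      exact ⟨this.1, this.2.1, this.2.2.2⟩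
  -- representatives for Y
  have hh : ∀ u ∈ Y, ∃ w, w ∈ Z ∧ G.Adj y w ∧ G.Adj u w ∧ w ∉ S := by
    intro u hu
    have h1 := card_two_preds Z (fun w => G.Adj y w) (fun w => G.Adj u w)
    have h2 := hMY u hu
    have h3 : S.card < (Z.filter (fun w => G.Adj y w ∧ G.Adj u w)).card := by omega
    obtain ⟨w, hw1, hw2⟩ := Finset.exists_mem_notMem_of_card_lt_card h3
    simp only [Finset.mem_filter] at hw1
    exact ⟨w, hw1.1, hw1.2.1, hw1.2.2, hw2⟩
  -- the red part
  let A : Set V := {v | v ∈ X ∨ v ∈ S ∨ (v ∈ Z ∧ G.Adj x v ∧ ¬ G.Adj y v) ∨ v ∈ ZR}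
  have hnotA : ∀ w, w ∈ Z → G.Adj y w → w ∉ S → w ∈ Aᶜ := by
    intro w h1 h2 h3 hA
    rcases hA with h | h | h | h
    · exact dXZ' w h h1
    · exact h3 h
    · exact h.2.2 h2
    · have := (Finset.mem_filter.mp (Finset.mem_filter.mp h).1).2
      exact this.2 h2
  refine ⟨A, Aᶜ, disjoint_compl_right, Set.union_compl_self A, Or.inr (Or.inl ?_),
    Or.inr (Or.inr ?_)⟩
  · refine conn_of_center R A x (Or.inl hx) ?_
    intro a ha
    rcases ha with h | h | h | h
    · by_cases e : a = x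
      · exact Or.inl e
      · have h1 := hg a h
        refine Or.inr (Or.inr ⟨g a, Or.inr (Or.inl ?_), hXZ x hx _ h1.1 h1.2.1,
          (hXZ a h _ h1.1 h1.2.2.1).symm⟩)
        simp only [hS, Finset.mem_union, Finset.mem_image]
        exact Or.inr ⟨a, Finset.mem_erase.mpr ⟨e, h⟩, rfl⟩
    · exact Or.inr (Or.inl (hXZ x hx a (hSprop a h).1 (hSprop a h).2.1))
    · exact Or.inr (Or.inl (hXZ x hx a h.1 h.2.1))
    · have hz0 : a ∈ Z0 := (Finset.mem_filter.mp h).1
      refine Or.inr (Or.inr ⟨f a, Or.inr (Or.inl ?_),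
        hXZ x hx _ (hfW a hz0).1 (hfW a hz0).2.1, (Finset.mem_filter.mp h).2.symm⟩)
      simp only [hS, Finset.mem_union, Finset.mem_image]
      exact Or.inl ⟨a, h, rfl⟩
  · have hyA : y ∈ Aᶜ := by
      intro hA
      rcases hA with h | h | h | h
      · exact dXY' y h hy
      · exact dYZ' y hy (hSprop y h).1
      · exact dYZ' y hy h.1
      · exact dYZ' y hy (Finset.mem_filter.mp (Finset.mem_filter.mp h).1).1
    refine conn_of_center B Aᶜ y hyA ?_
    intro a ha
    have ha' : ¬ (a ∈ X ∨ a ∈ S ∨ (a ∈ Z ∧ G.Adj x a ∧ ¬ G.Adj y a) ∨ a ∈ ZR) := ha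
    rcases hcov a with h | h | h
    · exact absurd (Or.inl h) ha'
    · obtain ⟨w, h1, h2, h3, h4⟩ := hh a h
      exact Or.inr (Or.inr ⟨w, hnotA w h1 h2 h4, hYZ y hy w h1 h2, (hYZ a h w h1 h3).symm⟩)
    · by_cases hya : G.Adj y a
      · exact Or.inr (Or.inl (hYZ y hy a h hya))
      · by_cases hxa : G.Adj x a
        · exact absurd (Or.inr (Or.inr (Or.inl ⟨h, hxa, hya⟩))) ha'
        · have hz0 : a ∈ Z0 := Finset.mem_filter.mpr ⟨h, hxa, hya⟩
          have hnr : ¬ R.Adj a (f a) := fun hr =>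
            ha' (Or.inr (Or.inr (Or.inr (Finset.mem_filter.mpr ⟨hz0, hr⟩))))
          have hb : B.Adj a (f a) := (hG _ _ (hfW a hz0).2.2.2).resolve_left hnr
          have hfT : f a ∈ T := Finset.mem_image.mpr ⟨a, Finset.mem_filter.mpr ⟨hz0, hnr⟩, rfl⟩
          refine Or.inr (Or.inr ⟨f a, hnotA _ (hfW a hz0).1 (hfW a hz0).2.2.1
            (fun hs => (hSprop _ hs).2.2 hfT), hYZ y hy _ (hfW a hz0).1 (hfW a hz0).2.2.1,
            hb.symm⟩)

end Pool.Agent.Lib.MP_63edde_co
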