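import Pool.Agent.Lib.MP_63edde_co.Core

set_option autoImplicit false

namespace Pool.Agent.Lib.MP_63edde_co

open Finset

variable {V : Type}

/-- Koenig's theorem for a bipartite multigraph with matching number at most two. -/
lemma koenig_two {P Q : Type} (r : V → P) (b : V → Q) (v0 : V)
    (h : ∀ u v w, r u = r v ∨ r u = r w ∨ r v = r w ∨ b u = b v ∨ b u = b w ∨ b v = b w) :
    (∃ u v, ∀ w, r w = r u ∨ r w = r v) ∨ (∃ u v, ∀ w, b w = b u ∨ b w = b v) ∨
      (∃ u v, ∀ w, r w = r u ∨ b w = b v) := by
  by_contra hcon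
  simp only [not_or, not_exists, not_forall] at hcon
  obtain ⟨h1, h2, h3⟩ := hcon
  obtain ⟨u, hu1, hu2⟩ := h3 v0 v0
  obtain ⟨w1, a1, a2⟩ := h1 v0 u
  obtain ⟨w2, b1, b2⟩ := h2 v0 u
  obtain ⟨w3, c1, c2⟩ := h3 v0 u
  obtain ⟨w4, d1, d2⟩ := h3 u v0
  have e1 := h w1 w2 v0
  have e2 := h w1 w2 u
  have e3 := h w1 w2 w3
  have e4 := h w1 w2 w4
  have e5 := h w1 w3 v0
  have e6 := h w1 w4 u
  have e7 := h w2 w3 u
  have e8 := h w2 w4 v0
  have e9 := h w1 v0 u
  have e10 := h w2 v0 u
  have e11 := h w3 v0 u
  have e12 := h w4 v0 u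
  have e13 := h w1 w3 u
  have e14 := h w1 w4 v0
  have e15 := h w2 w3 v0
  have e16 := h w2 w4 u
  grind

lemma comp_conn (H : SimpleGraph V) (u : V) :
    (H.induce {w | H.connectedComponentMk w = H.connectedComponentMk u}).Connected :=
  (H.connectedComponentMk u).connected_toSimpleGraph

lemma split_of_same (R B H : SimpleGraph V) (hH : H = R ∨ H = B) (u v : V)
    (h : ∀ w, H.connectedComponentMk w = H.connectedComponentMk u ∨
      H.connectedComponentMk w = H.connectedComponentMk v) : Split R B := by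
  have good : ∀ t : V, Good R B {w | H.connectedComponentMk w = H.connectedComponentMk t} := by
    intro t
    rcases hH with rfl | rfl
    · exact Or.inr (Or.inl (comp_conn _ t))
    · exact Or.inr (Or.inr (comp_conn _ t))
  by_cases e : H.connectedComponentMk u = H.connectedComponentMk v
  · refine ⟨{w | H.connectedComponentMk w = H.connectedComponentMk u}, ∅, by simp, ?_, good u,
      Or.inl rfl⟩
    ext w
    simpa [e] using h w
  · refine ⟨{w | H.connectedComponentMk w = H.connectedComponentMk u},
      {w | H.connectedComponentMk w = H.connectedComponentMk v}, ?_, ?_, good u, good v⟩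
    · rw [Set.disjoint_left]
      intro w h1 h2
      exact e (h1.symm.trans h2)
    · ext w
      simpa using h w

theorem split_main [Fintype V] [DecidableEq V] (G R B : SimpleGraph V) [DecidableRel G.Adj]
    (hG : ∀ u v, G.Adj u v → R.Adj u v ∨ B.Adj u v) (k : ℕ)
    (hk : ∀ v, (univ.filter (fun w => w ≠ v ∧ ¬ G.Adj v w)).card ≤ k)
    (hn : 3 * k ≤ Fintype.card V + 2) : Split R B := by
  classical
  rcases isEmpty_or_nonempty V with hV | ⟨⟨v0⟩⟩
  · exact ⟨∅, ∅, by simp, by ext w; exact (hV.false w).elim, Or.inl rfl, Or.inl rfl⟩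
  have adjR : ∀ u v, R.Adj u v → R.connectedComponentMk u = R.connectedComponentMk v :=
    fun u v h => SimpleGraph.ConnectedComponent.sound h.reachable
  have adjB : ∀ u v, B.Adj u v → B.connectedComponentMk u = B.connectedComponentMk v :=
    fun u v h => SimpleGraph.ConnectedComponent.sound h.reachable
  have adjG : ∀ u v, G.Adj u v → R.connectedComponentMk u = R.connectedComponentMk v ∨
      B.connectedComponentMk u = B.connectedComponentMk v :=
    fun u v h => (hG u v h).imp (adjR u v) (adjB u v)
  have three : ∀ u v w, R.connectedComponentMk u = R.connectedComponentMk v ∨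
      R.connectedComponentMk u = R.connectedComponentMk w ∨
      R.connectedComponentMk v = R.connectedComponentMk w ∨
      B.connectedComponentMk u = B.connectedComponentMk v ∨
      B.connectedComponentMk u = B.connectedComponentMk w ∨
      B.connectedComponentMk v = B.connectedComponentMk w := by
    intro u v w
    by_contra hcon
    simp only [not_or] at hcon
    obtain ⟨r1, r2, r3, b1, b2, b3⟩ := hcon
    have uv : u ≠ v := fun e => r1 (by rw [e])
    have uw : u ≠ w := fun e => r2 (by rw [e])
    have vw : v ≠ w := fun e => r3 (by rw [e])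
    have nuv : ¬ G.Adj u v := fun h => (adjG _ _ h).elim r1 b1
    have nuw : ¬ G.Adj u w := fun h => (adjG _ _ h).elim r2 b2
    have nvw : ¬ G.Adj v w := fun h => (adjG _ _ h).elim r3 b3
    -- a common neighbour
    have key : ∀ a b c : V, a ≠ b → a ≠ c → b ≠ c → ¬ G.Adj a b → ¬ G.Adj a c →
        (univ.filter (fun t => t ≠ a ∧ t ≠ b ∧ t ≠ c ∧ ¬ G.Adj a t)).card + 1 + 1 ≤ k := by
      intro a b c ab ac bc nab nac
      rw [← Finset.card_insert_of_notMem (a := b) (by simp),
        ← Finset.card_insert_of_notMem (a := c) (by simp [bc.symm])]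
      refine le_trans (Finset.card_le_card ?_) (hk a)
      intro t ht
      simp only [Finset.mem_insert, Finset.mem_filter, Finset.mem_univ, true_and] at ht ⊢
      rcases ht with rfl | rfl | ⟨h1, _, _, h4⟩
      · exact ⟨ac.symm, nac⟩
      · exact ⟨ab.symm, nab⟩
      · exact ⟨h1, h4⟩
    have k1 := key u v w uv uw vw nuv nuw
    have k2 := key v u w uv.symm vw uw (fun h => nuv h.symm) nvw
    have k3 := key w u v uw.symm vw.symm uv (fun h => nuw h.symm) (fun h => nvw h.symm)
    have hex : ∃ t, G.Adj u t ∧ G.Adj v t ∧ G.Adj w t := by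
      by_contra hno
      simp only [not_exists, not_and] at hno
      have hsub : (univ : Finset V) ⊆ insert u (insert v (insert w
          (univ.filter (fun t => t ≠ u ∧ t ≠ v ∧ t ≠ w ∧ ¬ G.Adj u t) ∪
           univ.filter (fun t => t ≠ v ∧ t ≠ u ∧ t ≠ w ∧ ¬ G.Adj v t) ∪
           univ.filter (fun t => t ≠ w ∧ t ≠ u ∧ t ≠ v ∧ ¬ G.Adj w t)))) := by
        intro t _
        simp only [Finset.mem_insert, Finset.mem_union, Finset.mem_filter, Finset.mem_univ,
          true_and]
        have := hno t
        tauto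
      have h1 := Finset.card_le_card hsub
      have h2 := Finset.card_insert_le u (insert v (insert w
          (univ.filter (fun t => t ≠ u ∧ t ≠ v ∧ t ≠ w ∧ ¬ G.Adj u t) ∪
           univ.filter (fun t => t ≠ v ∧ t ≠ u ∧ t ≠ w ∧ ¬ G.Adj v t) ∪
           univ.filter (fun t => t ≠ w ∧ t ≠ u ∧ t ≠ v ∧ ¬ G.Adj w t))))
      have h3 := Finset.card_insert_le v (insert w
          (univ.filter (fun t => t ≠ u ∧ t ≠ v ∧ t ≠ w ∧ ¬ G.Adj u t) ∪
           univ.filter (fun t => t ≠ v ∧ t ≠ u ∧ t ≠ w ∧ ¬ G.Adj v t) ∪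
           univ.filter (fun t => t ≠ w ∧ t ≠ u ∧ t ≠ v ∧ ¬ G.Adj w t)))
      have h4 := Finset.card_insert_le w
          (univ.filter (fun t => t ≠ u ∧ t ≠ v ∧ t ≠ w ∧ ¬ G.Adj u t) ∪
           univ.filter (fun t => t ≠ v ∧ t ≠ u ∧ t ≠ w ∧ ¬ G.Adj v t) ∪
           univ.filter (fun t => t ≠ w ∧ t ≠ u ∧ t ≠ v ∧ ¬ G.Adj w t))
      have h5 := Finset.card_union_le
          (univ.filter (fun t => t ≠ u ∧ t ≠ v ∧ t ≠ w ∧ ¬ G.Adj u t) ∪
           univ.filter (fun t => t ≠ v ∧ t ≠ u ∧ t ≠ w ∧ ¬ G.Adj v t))
           (univ.filter (fun t => t ≠ w ∧ t ≠ u ∧ t ≠ v ∧ ¬ G.Adj w t))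
      have h6 := Finset.card_union_le
          (univ.filter (fun t => t ≠ u ∧ t ≠ v ∧ t ≠ w ∧ ¬ G.Adj u t))
          (univ.filter (fun t => t ≠ v ∧ t ≠ u ∧ t ≠ w ∧ ¬ G.Adj v t))
      rw [Finset.card_univ] at h1
      omega
    obtain ⟨t, h1, h2, h3⟩ := hex
    have g1 := adjG _ _ h1
    have g2 := adjG _ _ h2
    have g3 := adjG _ _ h3
    grind
  rcases koenig_two R.connectedComponentMk B.connectedComponentMk v0 three with
    ⟨u, v, h⟩ | ⟨u, v, h⟩ | ⟨u, v, h⟩
  · exact split_of_same R B R (Or.inl rfl) u v h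
  · exact split_of_same R B B (Or.inr rfl) u v h
  · set X := univ.filter (fun w => B.connectedComponentMk w ≠ B.connectedComponentMk v) with hX
    set Y := univ.filter (fun w => R.connectedComponentMk w ≠ R.connectedComponentMk u) with hY
    set Z := univ.filter (fun w => R.connectedComponentMk w = R.connectedComponentMk u ∧
      B.connectedComponentMk w = B.connectedComponentMk v) with hZ
    have mX : ∀ w, w ∈ X ↔ B.connectedComponentMk w ≠ B.connectedComponentMk v := by
      intro w; simp [hX]
    have mY : ∀ w, w ∈ Y ↔ R.connectedComponentMk w ≠ R.connectedComponentMk u := by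
      intro w; simp [hY]
    have mZ : ∀ w, w ∈ Z ↔ (R.connectedComponentMk w = R.connectedComponentMk u ∧
      B.connectedComponentMk w = B.connectedComponentMk v) := by
      intro w; simp [hZ]
    by_cases cX : ∀ a ∈ X, ∀ b ∈ X, a ≠ b → G.Adj a b
    · refine ⟨{w | B.connectedComponentMk w = B.connectedComponentMk v},
        {w | B.connectedComponentMk w = B.connectedComponentMk v}ᶜ, disjoint_compl_right,
        Set.union_compl_self _, Or.inr (Or.inr (comp_conn B v)), good_of_complete R B _ ?_⟩
      intro a ha b hb hab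
      exact hG a b (cX a ((mX a).mpr ha) b ((mX b).mpr hb) hab)
    by_cases cY : ∀ a ∈ Y, ∀ b ∈ Y, a ≠ b → G.Adj a b
    · refine ⟨{w | R.connectedComponentMk w = R.connectedComponentMk u},
        {w | R.connectedComponentMk w = R.connectedComponentMk u}ᶜ, disjoint_compl_right,
        Set.union_compl_self _, Or.inr (Or.inl (comp_conn R u)), good_of_complete R B _ ?_⟩
      intro a ha b hb hab
      exact hG a b (cY a ((mY a).mpr ha) b ((mY b).mpr hb) hab)
    simp only [not_forall] at cX cY
    obtain ⟨x, hx, x', hx', hxx, hxn⟩ := cX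
    obtain ⟨y, hy, y', hy', hyy, hyn⟩ := cY
    refine core G R B hG k hk hn X Y Z ?_ ?_ ?_ ?_ ?_ ?_ ?_ x x' y y' hx hx' (Ne.symm hxx) hxn
      hy hy' (Ne.symm hyy) hyn
    · intro w
      rw [mX, mY, mZ]
      tauto
    · rw [Finset.disjoint_left]
      intro w h1 h2
      rw [mX] at h1
      rw [mY] at h2
      exact (h w).elim h2 h1
    · rw [Finset.disjoint_left]
      intro w h1 h2
      rw [mX] at h1
      rw [mZ] at h2
      exact h1 h2.2
    · rw [Finset.disjoint_left]
      intro w h1 h2
      rw [mY] at h1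
      rw [mZ] at h2
      exact h1 h2.1
    · intro a ha b hb hab
      rw [mX] at ha
      rw [mY] at hb
      have h1 := h a
      have h2 := h b
      have h3 := adjG a b hab
      grind
    · intro a ha z hz haz
      rw [mX] at ha
      rw [mZ] at hz
      rcases hG a z haz with h1 | h1
      · exact h1
      · exact absurd ((adjB _ _ h1).trans hz.2) ha
    · intro a ha z hz haz
      rw [mY] at ha
      rw [mZ] at hz
      rcases hG a z haz with h1 | h1
      · exact absurd ((adjR _ _ h1).trans hz.1) ha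
      · exact h1

theorem main (V : Type) [Fintype V] [DecidableEq V] (G : SimpleGraph V) [DecidableRel G.Adj]
    (hd : 2 * Fintype.card V ≤ 3 * G.minDegree + 5) (c : Sym2 V → Fin 2) :
    Split (G.deleteEdges {e | c e ≠ 0}) (G.deleteEdges {e | c e ≠ 1}) := by
  refine split_main G _ _ ?_ ((Fintype.card V + 2) / 3) ?_ (by omega)
  · intro u v h
    simp only [SimpleGraph.deleteEdges_adj, Set.mem_ofPred_eq, not_not, h, true_and]
    omega
  · intro v
    have h1 := G.minDegree_le_degree v
    have h2 : (univ.filter (fun w => w ≠ v ∧ ¬ G.Adj v w)).card + G.degree v + 1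
        ≤ Fintype.card V := by
      rw [← SimpleGraph.card_neighborFinset_eq_degree, ← Finset.card_union_of_disjoint (by
          rw [Finset.disjoint_left]
          intro w h1 h2
          simp only [Finset.mem_filter, SimpleGraph.mem_neighborFinset] at h1 h2
          exact h1.2.2 h2),
        ← Finset.card_insert_of_notMem (a := v) (by simp)]
      exact Finset.card_le_univ _
    omega

end Pool.Agent.Lib.MP_63edde_co
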